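import Pool.Agent.Lib.MP_2b7a4a_co.Final
import Pool.Agent.Lib.MP_2b7a4a_co.Sec0
import Pool.Agent.Lib.MP_2b7a4a_co.Sec1
import Pool.Agent.Lib.MP_2b7a4a_co.Sec2
import Pool.Agent.Lib.MP_2b7a4a_co.Sec3
import Pool.Agent.Lib.MP_2b7a4a_co.Sec4
import Pool.Agent.Lib.MP_2b7a4a_co.Sec5
import Pool.Agent.Lib.MP_2b7a4a_co.Sec6
import Pool.Agent.Lib.MP_2b7a4a_co.Sec7
import Pool.Agent.Lib.MP_2b7a4a_co.Sec8
import Pool.Agent.Lib.MP_2b7a4a_co.Sec9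
import Pool.Agent.Lib.MP_2b7a4a_co.Sec10
import Pool.Agent.Lib.MP_2b7a4a_co.Sec11
import Pool.Agent.Lib.MP_2b7a4a_co.Sec12
import Pool.Agent.Lib.MP_2b7a4a_co.Sec13
import Pool.Agent.Lib.MP_2b7a4a_co.Sec14
import Pool.Agent.Lib.MP_2b7a4a_co.Sec15
import Pool.Agent.Lib.MP_2b7a4a_co.Sec16

namespace Pool.Agent.Lib.MP_2b7a4a_co

theorem rotOK : RotOK cfg := by decide +kernel

theorem sepOK : SepOK cfg := by decide +kernel

theorem line0 (y u : ℝ) (h0 : 0 ≤ y) (h1 : y ≤ cfg.L) (h2 : 0 ≤ cfg.A + cfg.G * u)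
    (h3 : cfg.A + cfg.G * u ≤ 2 * cfg.A) : LineOK cfg ((0 : ℕ) : ℝ) y u :=
  check_spec (by decide) (by decide) _ sec0 (by exact_mod_cast h0) h1 (by exact_mod_cast h2)
    (by have e : (((868672 : ℕ)) : ℝ) = 2 * ((cfg.A : ℕ) : ℝ) := by norm_num [cfg]
        rw [e]; exact h3)

theorem line1 (y u : ℝ) (h0 : 0 ≤ y) (h1 : y ≤ cfg.L) (h2 : 0 ≤ cfg.A + cfg.G * u)
    (h3 : cfg.A + cfg.G * u ≤ 2 * cfg.A) : LineOK cfg ((1589 : ℕ) : ℝ) y u :=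
  check_spec (by decide) (by decide) _ sec1 (by exact_mod_cast h0) h1 (by exact_mod_cast h2)
    (by have e : (((868672 : ℕ)) : ℝ) = 2 * ((cfg.A : ℕ) : ℝ) := by norm_num [cfg]
        rw [e]; exact h3)

theorem line2 (y u : ℝ) (h0 : 0 ≤ y) (h1 : y ≤ cfg.L) (h2 : 0 ≤ cfg.A + cfg.G * u)
    (h3 : cfg.A + cfg.G * u ≤ 2 * cfg.A) : LineOK cfg ((3178 : ℕ) : ℝ) y u :=
  check_spec (by decide) (by decide) _ sec2 (by exact_mod_cast h0) h1 (by exact_mod_cast h2)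
    (by have e : (((868672 : ℕ)) : ℝ) = 2 * ((cfg.A : ℕ) : ℝ) := by norm_num [cfg]
        rw [e]; exact h3)

theorem line3 (y u : ℝ) (h0 : 0 ≤ y) (h1 : y ≤ cfg.L) (h2 : 0 ≤ cfg.A + cfg.G * u)
    (h3 : cfg.A + cfg.G * u ≤ 2 * cfg.A) : LineOK cfg ((4767 : ℕ) : ℝ) y u :=
  check_spec (by decide) (by decide) _ sec3 (by exact_mod_cast h0) h1 (by exact_mod_cast h2)
    (by have e : (((868672 : ℕ)) : ℝ) = 2 * ((cfg.A : ℕ) : ℝ) := by norm_num [cfg]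
        rw [e]; exact h3)

theorem line4 (y u : ℝ) (h0 : 0 ≤ y) (h1 : y ≤ cfg.L) (h2 : 0 ≤ cfg.A + cfg.G * u)
    (h3 : cfg.A + cfg.G * u ≤ 2 * cfg.A) : LineOK cfg ((6356 : ℕ) : ℝ) y u :=
  check_spec (by decide) (by decide) _ sec4 (by exact_mod_cast h0) h1 (by exact_mod_cast h2)
    (by have e : (((868672 : ℕ)) : ℝ) = 2 * ((cfg.A : ℕ) : ℝ) := by norm_num [cfg]
        rw [e]; exact h3)

theorem line5 (y u : ℝ) (h0 : 0 ≤ y) (h1 : y ≤ cfg.L) (h2 : 0 ≤ cfg.A + cfg.G * u)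
    (h3 : cfg.A + cfg.G * u ≤ 2 * cfg.A) : LineOK cfg ((7945 : ℕ) : ℝ) y u :=
  check_spec (by decide) (by decide) _ sec5 (by exact_mod_cast h0) h1 (by exact_mod_cast h2)
    (by have e : (((868672 : ℕ)) : ℝ) = 2 * ((cfg.A : ℕ) : ℝ) := by norm_num [cfg]
        rw [e]; exact h3)

theorem line6 (y u : ℝ) (h0 : 0 ≤ y) (h1 : y ≤ cfg.L) (h2 : 0 ≤ cfg.A + cfg.G * u)
    (h3 : cfg.A + cfg.G * u ≤ 2 * cfg.A) : LineOK cfg ((9534 : ℕ) : ℝ) y u :=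
  check_spec (by decide) (by decide) _ sec6 (by exact_mod_cast h0) h1 (by exact_mod_cast h2)
    (by have e : (((868672 : ℕ)) : ℝ) = 2 * ((cfg.A : ℕ) : ℝ) := by norm_num [cfg]
        rw [e]; exact h3)

theorem line7 (y u : ℝ) (h0 : 0 ≤ y) (h1 : y ≤ cfg.L) (h2 : 0 ≤ cfg.A + cfg.G * u)
    (h3 : cfg.A + cfg.G * u ≤ 2 * cfg.A) : LineOK cfg ((11123 : ℕ) : ℝ) y u :=
  check_spec (by decide) (by decide) _ sec7 (by exact_mod_cast h0) h1 (by exact_mod_cast h2)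
    (by have e : (((868672 : ℕ)) : ℝ) = 2 * ((cfg.A : ℕ) : ℝ) := by norm_num [cfg]
        rw [e]; exact h3)

theorem line8 (y u : ℝ) (h0 : 0 ≤ y) (h1 : y ≤ cfg.L) (h2 : 0 ≤ cfg.A + cfg.G * u)
    (h3 : cfg.A + cfg.G * u ≤ 2 * cfg.A) : LineOK cfg ((12712 : ℕ) : ℝ) y u :=
  check_spec (by decide) (by decide) _ sec8 (by exact_mod_cast h0) h1 (by exact_mod_cast h2)
    (by have e : (((868672 : ℕ)) : ℝ) = 2 * ((cfg.A : ℕ) : ℝ) := by norm_num [cfg]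
        rw [e]; exact h3)

theorem line9 (y u : ℝ) (h0 : 0 ≤ y) (h1 : y ≤ cfg.L) (h2 : 0 ≤ cfg.A + cfg.G * u)
    (h3 : cfg.A + cfg.G * u ≤ 2 * cfg.A) : LineOK cfg ((14301 : ℕ) : ℝ) y u :=
  check_spec (by decide) (by decide) _ sec9 (by exact_mod_cast h0) h1 (by exact_mod_cast h2)
    (by have e : (((868672 : ℕ)) : ℝ) = 2 * ((cfg.A : ℕ) : ℝ) := by norm_num [cfg]
        rw [e]; exact h3)

theorem line10 (y u : ℝ) (h0 : 0 ≤ y) (h1 : y ≤ cfg.L) (h2 : 0 ≤ cfg.A + cfg.G * u)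
    (h3 : cfg.A + cfg.G * u ≤ 2 * cfg.A) : LineOK cfg ((15890 : ℕ) : ℝ) y u :=
  check_spec (by decide) (by decide) _ sec10 (by exact_mod_cast h0) h1 (by exact_mod_cast h2)
    (by have e : (((868672 : ℕ)) : ℝ) = 2 * ((cfg.A : ℕ) : ℝ) := by norm_num [cfg]
        rw [e]; exact h3)

theorem line11 (y u : ℝ) (h0 : 0 ≤ y) (h1 : y ≤ cfg.L) (h2 : 0 ≤ cfg.A + cfg.G * u)
    (h3 : cfg.A + cfg.G * u ≤ 2 * cfg.A) : LineOK cfg ((17479 : ℕ) : ℝ) y u :=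
  check_spec (by decide) (by decide) _ sec11 (by exact_mod_cast h0) h1 (by exact_mod_cast h2)
    (by have e : (((868672 : ℕ)) : ℝ) = 2 * ((cfg.A : ℕ) : ℝ) := by norm_num [cfg]
        rw [e]; exact h3)

theorem line12 (y u : ℝ) (h0 : 0 ≤ y) (h1 : y ≤ cfg.L) (h2 : 0 ≤ cfg.A + cfg.G * u)
    (h3 : cfg.A + cfg.G * u ≤ 2 * cfg.A) : LineOK cfg ((19068 : ℕ) : ℝ) y u :=
  check_spec (by decide) (by decide) _ sec12 (by exact_mod_cast h0) h1 (by exact_mod_cast h2)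
    (by have e : (((868672 : ℕ)) : ℝ) = 2 * ((cfg.A : ℕ) : ℝ) := by norm_num [cfg]
        rw [e]; exact h3)

theorem line13 (y u : ℝ) (h0 : 0 ≤ y) (h1 : y ≤ cfg.L) (h2 : 0 ≤ cfg.A + cfg.G * u)
    (h3 : cfg.A + cfg.G * u ≤ 2 * cfg.A) : LineOK cfg ((20657 : ℕ) : ℝ) y u :=
  check_spec (by decide) (by decide) _ sec13 (by exact_mod_cast h0) h1 (by exact_mod_cast h2)
    (by have e : (((868672 : ℕ)) : ℝ) = 2 * ((cfg.A : ℕ) : ℝ) := by norm_num [cfg]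
        rw [e]; exact h3)

theorem line14 (y u : ℝ) (h0 : 0 ≤ y) (h1 : y ≤ cfg.L) (h2 : 0 ≤ cfg.A + cfg.G * u)
    (h3 : cfg.A + cfg.G * u ≤ 2 * cfg.A) : LineOK cfg ((22246 : ℕ) : ℝ) y u :=
  check_spec (by decide) (by decide) _ sec14 (by exact_mod_cast h0) h1 (by exact_mod_cast h2)
    (by have e : (((868672 : ℕ)) : ℝ) = 2 * ((cfg.A : ℕ) : ℝ) := by norm_num [cfg]
        rw [e]; exact h3)

theorem line15 (y u : ℝ) (h0 : 0 ≤ y) (h1 : y ≤ cfg.L) (h2 : 0 ≤ cfg.A + cfg.G * u)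
    (h3 : cfg.A + cfg.G * u ≤ 2 * cfg.A) : LineOK cfg ((23835 : ℕ) : ℝ) y u :=
  check_spec (by decide) (by decide) _ sec15 (by exact_mod_cast h0) h1 (by exact_mod_cast h2)
    (by have e : (((868672 : ℕ)) : ℝ) = 2 * ((cfg.A : ℕ) : ℝ) := by norm_num [cfg]
        rw [e]; exact h3)

theorem line16 (y u : ℝ) (h0 : 0 ≤ y) (h1 : y ≤ cfg.L) (h2 : 0 ≤ cfg.A + cfg.G * u)
    (h3 : cfg.A + cfg.G * u ≤ 2 * cfg.A) : LineOK cfg ((25424 : ℕ) : ℝ) y u :=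
  check_spec (by decide) (by decide) _ sec16 (by exact_mod_cast h0) h1 (by exact_mod_cast h2)
    (by have e : (((868672 : ℕ)) : ℝ) = 2 * ((cfg.A : ℕ) : ℝ) := by norm_num [cfg]
        rw [e]; exact h3)

theorem main : ∃ B : Set (EuclideanSpace ℝ (Fin 2)), (∀ x ∉ B, ∀ y ∉ B, dist x y ≠ 1) ∧
    ¬ ∃ x v : EuclideanSpace ℝ (Fin 2), ‖v‖ = 1 ∧ ∀ j : ℕ, j < 37 → x + (j : ℝ) • v ∈ B := by
  refine coloring (P := cfg) (ns := 32) (w := 1589) rotOK sepOK (by decide) (by decide)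
    (by decide) (by decide) (by decide) (by decide +kernel) (by decide +kernel) ?_
  intro σ hσ y u h0 h1 h2 h3
  have hσ' : σ ≤ 16 := hσ
  interval_cases σ
  · exact line0 y u h0 h1 h2 h3
  · exact line1 y u h0 h1 h2 h3
  · exact line2 y u h0 h1 h2 h3
  · exact line3 y u h0 h1 h2 h3
  · exact line4 y u h0 h1 h2 h3
  · exact line5 y u h0 h1 h2 h3
  · exact line6 y u h0 h1 h2 h3
  · exact line7 y u h0 h1 h2 h3
  · exact line8 y u h0 h1 h2 h3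
  · exact line9 y u h0 h1 h2 h3
  · exact line10 y u h0 h1 h2 h3
  · exact line11 y u h0 h1 h2 h3
  · exact line12 y u h0 h1 h2 h3
  · exact line13 y u h0 h1 h2 h3
  · exact line14 y u h0 h1 h2 h3
  · exact line15 y u h0 h1 h2 h3
  · exact line16 y u h0 h1 h2 h3

end Pool.Agent.Lib.MP_2b7a4a_co
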