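import Mathlib

namespace Pool.Agent.Lib.MP_2b7a4a_co

/-- A point of a line close to a reference line lies in the disc. -/
theorem disc_hit {c s c0 s0 px py qy X Y A D τ σ ρ δ η h : ℝ}
    (hcs : c ^ 2 + s ^ 2 = 1) (hcs0 : c0 ^ 2 + s0 ^ 2 = 1)
    (hA : A = (X - px) * c0 + (Y - qy) * s0)
    (hD : D = -(X - px) * s0 + (Y - qy) * c0)
    (hη : |py - qy| ≤ η) (hδ0 : 0 ≤ δ)
    (hδ : (c - c0) ^ 2 + (s - s0) ^ 2 ≤ δ ^ 2)
    (hτ : τ = -(py - qy) * s) (hσ : |σ| ≤ ρ)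
    (hc : |c| ≤ 1)
    (hin : (ρ + |D| * δ + |A| * δ ^ 2 / 2) ^ 2 + (η + |D| + |A| * δ) ^ 2 < h ^ 2) :
    (px + (A + σ + τ) * c - X) ^ 2 + (py + (A + σ + τ) * s - Y) ^ 2 < h ^ 2 := by
  have hX : X - px = A * c0 - D * s0 := by
    rw [hA, hD]
    linear_combination (-(X - px)) * hcs0
  have hY : Y - qy = A * s0 + D * c0 := by
    rw [hA, hD]
    linear_combination (-(Y - qy)) * hcs0
  set C : ℝ := c * c0 + s * s0 with hC
  set S : ℝ := c0 * s - s0 * c with hS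
  have hC1 : 1 - C = ((c - c0) ^ 2 + (s - s0) ^ 2) / 2 := by
    rw [hC]; linear_combination (-1 / 2) * hcs + (-1 / 2) * hcs0
  have hCS : C ^ 2 + S ^ 2 = 1 := by
    rw [hC, hS]; linear_combination (c0 ^ 2 + s0 ^ 2) * hcs + hcs0
  have hC0 : 0 ≤ 1 - C := by rw [hC1]; positivity
  have hC2 : 1 - C ≤ δ ^ 2 / 2 := by rw [hC1]; linarith
  have hCabs : |C| ≤ 1 := by
    apply abs_le_of_sq_le_sq _ zero_le_one
    have := sq_nonneg S
    linarith
  have hSabs : |S| ≤ δ := by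
    apply abs_le_of_sq_le_sq _ hδ0
    have h1 : C ≤ 1 := by linarith
    have h2 : S ^ 2 = (1 - C) * (1 + C) := by linear_combination hCS
    have h3 : (1 - C) * (1 + C) ≤ (1 - C) * 2 := mul_le_mul_of_nonneg_left (by linarith) hC0
    rw [h2]
    linarith
  set W1 : ℝ := σ + A * (1 - C) - D * S with hW1
  set W2 : ℝ := A * S - D * C + (py - qy) * c with hW2
  have hsum : (px + (A + σ + τ) * c - X) ^ 2 + (py + (A + σ + τ) * s - Y) ^ 2 = W1 ^ 2 + W2 ^ 2 := by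
    have e1 : W1 = (px + (A + σ + τ) * c - X) * c + (py + (A + σ + τ) * s - Y) * s := by
      have : (px + (A + σ + τ) * c - X) * c + (py + (A + σ + τ) * s - Y) * s =
          (A + σ + τ) * (c ^ 2 + s ^ 2) - (X - px) * c - (Y - qy) * s + (py - qy) * s := by ring
      rw [this, hcs, hX, hY, hτ, hW1, hC, hS]
      ring
    have e2 : W2 = -(px + (A + σ + τ) * c - X) * s + (py + (A + σ + τ) * s - Y) * c := by
      have : -(px + (A + σ + τ) * c - X) * s + (py + (A + σ + τ) * s - Y) * c =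
          (X - px) * s - (Y - qy) * c + (py - qy) * c := by ring
      rw [this, hX, hY, hW2, hC, hS]
      ring
    rw [e1, e2]
    linear_combination (-((px + (A + σ + τ) * c - X) ^ 2 + (py + (A + σ + τ) * s - Y) ^ 2)) * hcs
  rw [hsum]
  have hη0 : 0 ≤ η := (abs_nonneg _).trans hη
  have hρ0 : 0 ≤ ρ := (abs_nonneg _).trans hσ
  have b1 : |W1| ≤ ρ + |D| * δ + |A| * δ ^ 2 / 2 := by
    have h1 : |A * (1 - C)| ≤ |A| * δ ^ 2 / 2 := by
      rw [abs_mul, abs_of_nonneg hC0]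
      have := mul_le_mul_of_nonneg_left hC2 (abs_nonneg A)
      linarith
    have h2 : |D * S| ≤ |D| * δ := by
      rw [abs_mul]; exact mul_le_mul_of_nonneg_left hSabs (abs_nonneg D)
    calc |W1| ≤ |σ + A * (1 - C)| + |D * S| := abs_sub _ _
      _ ≤ |σ| + |A * (1 - C)| + |D * S| := by gcongr; exact abs_add_le _ _
      _ ≤ _ := by linarith
  have b2 : |W2| ≤ η + |D| + |A| * δ := by
    have h1 : |A * S| ≤ |A| * δ := by
      rw [abs_mul]; exact mul_le_mul_of_nonneg_left hSabs (abs_nonneg A)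
    have h2 : |D * C| ≤ |D| := by
      rw [abs_mul]; exact mul_le_of_le_one_right (abs_nonneg D) hCabs
    have h3 : |(py - qy) * c| ≤ η := by
      rw [abs_mul]
      calc |py - qy| * |c| ≤ |py - qy| * 1 := mul_le_mul_of_nonneg_left hc (abs_nonneg _)
        _ ≤ η := by linarith
    calc |W2| ≤ |A * S - D * C| + |(py - qy) * c| := abs_add_le _ _
      _ ≤ |A * S| + |D * C| + |(py - qy) * c| := by gcongr; exact abs_sub _ _
      _ ≤ _ := by linarith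
  calc W1 ^ 2 + W2 ^ 2 = |W1| ^ 2 + |W2| ^ 2 := by rw [sq_abs, sq_abs]
    _ ≤ (ρ + |D| * δ + |A| * δ ^ 2 / 2) ^ 2 + (η + |D| + |A| * δ) ^ 2 := by gcongr
    _ < h ^ 2 := hin

/-- The chord between two points of the rational parametrisation of the circle. -/
theorem chord_le (u u0 : ℝ) :
    ((1 - u ^ 2) / (1 + u ^ 2) - (1 - u0 ^ 2) / (1 + u0 ^ 2)) ^ 2 +
      (2 * u / (1 + u ^ 2) - 2 * u0 / (1 + u0 ^ 2)) ^ 2 ≤ (2 * (u - u0)) ^ 2 := by
  have h1 : (0 : ℝ) < 1 + u ^ 2 := by positivity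
  have h2 : (0 : ℝ) < 1 + u0 ^ 2 := by positivity
  have e : ((1 - u ^ 2) / (1 + u ^ 2) - (1 - u0 ^ 2) / (1 + u0 ^ 2)) ^ 2 +
      (2 * u / (1 + u ^ 2) - 2 * u0 / (1 + u0 ^ 2)) ^ 2 =
      (2 * (u - u0)) ^ 2 / ((1 + u ^ 2) * (1 + u0 ^ 2)) := by
    field_simp
    ring
  rw [e]
  apply div_le_self (sq_nonneg _)
  nlinarith [sq_nonneg u, sq_nonneg u0, mul_nonneg (sq_nonneg u) (sq_nonneg u0)]

theorem circ (u : ℝ) : ((1 - u ^ 2) / (1 + u ^ 2)) ^ 2 + (2 * u / (1 + u ^ 2)) ^ 2 = 1 := by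
  have h1 : (0 : ℝ) < 1 + u ^ 2 := by positivity
  field_simp
  ring

end Pool.Agent.Lib.MP_2b7a4a_co
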