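import Mathlib
import Pool.Agent.Lib.MP_2b7a4a_co.Geo

namespace Pool.Agent.Lib.MP_2b7a4a_co

/-- Parameters of a configuration: packed coordinates of the centres, their number, the period
(units: 4096 = distance one), scale and offset of the parameter `tan (θ/2)`, window half-length. -/
structure Par where
  KX : ℕ
  KY : ℕ
  M : ℕ
  L : ℕ
  G : ℕ
  A : ℕ
  H : ℕ

variable (P : Par)

/-- Coordinates of the disc centres (units: 4096 = distance one). -/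
def ctrX (i : ℕ) : ℕ := Nat.mod (Nat.div P.KX (Nat.pow 65536 i)) 65536

def ctrY (i : ℕ) : ℕ := Nat.mod (Nat.div P.KY (Nat.pow 65536 i)) 65536

/-- The red set, in scaled coordinates. -/
def Red (x y : ℝ) : Prop :=
  ∃ i : ℕ, i < P.M ∧ ∃ a b : ℤ,
    (x - ((ctrX P i : ℝ) + a * P.L)) ^ 2 + (y - ((ctrY P i : ℝ) + b * P.L)) ^ 2 < 2048 ^ 2

/-- Direction vector with parameter `u`. -/
noncomputable def dc (u : ℝ) : ℝ := (1 - u ^ 2) / (1 + u ^ 2)
noncomputable def ds (u : ℝ) : ℝ := 2 * u / (1 + u ^ 2)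

/-- Every phase of unit steps on the line through `(x, y)` with parameter `u` hits a red point
within distance `P.H` of `(x, y)`. -/
def LineOK (x y u : ℝ) : Prop :=
  ∀ z : ℝ, ∃ n : ℤ, |z + n * 4096| ≤ P.H ∧ Red P (x + (z + n * 4096) * dc u) (y + (z + n * 4096) * ds u)

/-- The disc test. -/
def discOK (α β N ρ f e : ℕ) : Bool :=
  let X1 := Nat.add (Nat.add (Nat.mul ρ (Nat.mul 4 (Nat.mul N (Nat.mul P.G P.G))))
    (Nat.mul 2 (Nat.mul β (Nat.mul e P.G)))) (Nat.mul α (Nat.mul e e))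
  let X2 := Nat.mul (Nat.mul 2 P.G) (Nat.add (Nat.add (Nat.mul f (Nat.mul N P.G)) (Nat.mul β P.G))
    (Nat.mul α e))
  Nat.blt (Nat.add (Nat.mul X1 X1) (Nat.mul X2 X2))
    (Nat.pow (Nat.mul 8192 (Nat.mul N (Nat.mul P.G P.G))) 2)

/-- The window test. -/
def winOK (α N ρ f : ℕ) : Bool :=
  Nat.ble (Nat.add α (Nat.mul N (Nat.add (Nat.mul 2 ρ) f))) (Nat.mul 2 (Nat.mul N P.H))

def adv (lo N ρ R : ℕ) : ℕ :=
  let W := Nat.mul 8192 N
  let g := Nat.mod (Nat.sub (Nat.add R (Nat.mul 128 W)) lo) W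
  cond (Nat.ble g R) (Nat.sub (Nat.add R (Nat.mul 4 (Nat.mul N ρ))) g) 0

def loOf (x y N ρ : ℕ) : ℕ :=
  Nat.sub (Nat.sub (Nat.add x (Nat.mul 524288 N)) y) (Nat.mul 2 (Nat.mul N ρ))

def absd (x y : ℕ) : ℕ := Nat.add (Nat.sub x y) (Nat.sub y x)

def stepB (x y x' y' N ρ f e R : ℕ) : ℕ :=
  cond (and (discOK P (absd x y) (absd x' y') N ρ f e) (winOK P (absd x y) N ρ f))
    (adv (loOf x y N ρ) N ρ R) 0

def stepA (Cn SP SM N P1 M1 P2 M2 ρ f e R : ℕ) : ℕ :=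
  stepB P (Nat.add (Nat.add (Nat.mul P1 Cn) (Nat.mul P2 SP)) (Nat.mul M2 SM))
    (Nat.add (Nat.add (Nat.mul M1 Cn) (Nat.mul M2 SP)) (Nat.mul P2 SM))
    (Nat.add (Nat.add (Nat.mul P2 Cn) (Nat.mul P1 SM)) (Nat.mul M1 SP))
    (Nat.add (Nat.add (Nat.mul M2 Cn) (Nat.mul P1 SP)) (Nat.mul M1 SM)) N ρ f e R

def cI (c : ℕ) : ℕ := Nat.mod c 64
def cA (c : ℕ) : ℕ := Nat.mod (Nat.div c 64) 64
def cB (c : ℕ) : ℕ := Nat.mod (Nat.div c 4096) 64
def cR (c : ℕ) : ℕ := Nat.div c 262144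

def pX (c : ℕ) : ℕ := Nat.mul 2 (Nat.add (ctrX P (cI c)) (Nat.mul (cA c) P.L))
def pY (c : ℕ) : ℕ := Nat.mul 2 (Nat.add (ctrY P (cI c)) (Nat.mul (cB c) P.L))
def mX (sx : ℕ) : ℕ := Nat.mul 2 (Nat.add (Nat.mul 32 P.L) sx)
def mY (yy : ℕ) : ℕ := Nat.add (Nat.mul 64 P.L) yy

/-- One step of the covering chain. -/
def step (Cn SP SM N sx yy f e c R : ℕ) : ℕ :=
  cond (Nat.blt (cI c) P.M) (stepA P Cn SP SM N (pX P c) (mX P sx) (pY P c) (mY P yy) (cR c) f e R) 0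

def chain (P : Par) (Cn SP SM N sx yy f e : ℕ) : List ℕ → ℕ → ℕ
  | [], R => R
  | c :: cs, R => chain P Cn SP SM N sx yy f e cs (step P Cn SP SM N sx yy f e c R)

def start (Cn SP SM N sx yy c : ℕ) : ℕ :=
  loOf (Nat.add (Nat.add (Nat.mul (pX P c) Cn) (Nat.mul (pY P c) SP)) (Nat.mul (mY P yy) SM))
    (Nat.add (Nat.add (Nat.mul (mX P sx) Cn) (Nat.mul (mY P yy) SP)) (Nat.mul (pY P c) SM)) N (cR c)

def leafB (l : List ℕ) (R0 Cn SP SM N sx yy f e : ℕ) : Bool :=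
  Nat.ble (Nat.add R0 (Nat.mul 8192 N)) (chain P Cn SP SM N sx yy f e l R0)

def leafA (l : List ℕ) (sx yy f e Up Um Uu : ℕ) : Bool :=
  and (Nat.ble Uu (Nat.mul 2 P.G))
    (leafB P l
      (start P (Nat.sub (Nat.mul 4 (Nat.mul P.G P.G)) (Nat.mul Uu Uu)) (Nat.mul 4 (Nat.mul Up P.G))
        (Nat.mul 4 (Nat.mul Um P.G)) (Nat.add (Nat.mul 4 (Nat.mul P.G P.G)) (Nat.mul Uu Uu)) sx yy
        (l.headD 0))
      (Nat.sub (Nat.mul 4 (Nat.mul P.G P.G)) (Nat.mul Uu Uu)) (Nat.mul 4 (Nat.mul Up P.G))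
      (Nat.mul 4 (Nat.mul Um P.G)) (Nat.add (Nat.mul 4 (Nat.mul P.G P.G)) (Nat.mul Uu Uu)) sx yy f e)

def leafOK (l : List ℕ) (sx ylo yhi ulo uhi : ℕ) : Bool :=
  leafA P l sx (Nat.add ylo yhi) (Nat.sub yhi ylo) (Nat.sub uhi ulo)
    (Nat.sub (Nat.add ulo uhi) (Nat.mul 2 P.A)) (Nat.sub (Nat.mul 2 P.A) (Nat.add ulo uhi))
    (absd (Nat.add ulo uhi) (Nat.mul 2 P.A))

/-- Subdivision trees. -/
inductive Tr
  | leaf (l : List ℕ) : Tr
  | ys (m : ℕ) (a b : Tr) : Tr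
  | us (m : ℕ) (a b : Tr) : Tr

def check (P : Par) : Tr → ℕ → ℕ → ℕ → ℕ → ℕ → Bool
  | .leaf l, sx, ylo, yhi, ulo, uhi => leafOK P l sx ylo yhi ulo uhi
  | .ys m a b, sx, ylo, yhi, ulo, uhi => and (check P a sx ylo m ulo uhi) (check P b sx m yhi ulo uhi)
  | .us m a b, sx, ylo, yhi, ulo, uhi => and (check P a sx ylo yhi ulo m) (check P b sx ylo yhi m uhi)

section Soundness

variable {P}


theorem ble_true {a b : ℕ} (h : Nat.ble a b = true) : a ≤ b := Nat.le_of_ble_eq_true h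

theorem blt_true {a b : ℕ} (h : Nat.blt a b = true) : a < b := Nat.le_of_ble_eq_true h

theorem absd_cast (x y : ℕ) : ((absd x y : ℕ) : ℝ) = |(x : ℝ) - y| := by
  unfold absd
  rcases le_total x y with h | h
  · have e1 : Nat.add (Nat.sub x y) (Nat.sub y x) = y - x := by
      show x - y + (y - x) = y - x
      omega
    rw [e1, Nat.cast_sub h, abs_sub_comm, abs_of_nonneg]
    have : (x : ℝ) ≤ y := by exact_mod_cast h
    linarith
  · have e1 : Nat.add (Nat.sub x y) (Nat.sub y x) = x - y := by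
      show x - y + (y - x) = x - y
      omega
    rw [e1, Nat.cast_sub h, abs_of_nonneg]
    have : (y : ℝ) ≤ x := by exact_mod_cast h
    linarith

theorem discOK_spec (hPG : 0 < P.G) {α β N ρ f e : ℕ} (hN : 0 < N) (h : discOK P α β N ρ f e = true) :
    ((ρ : ℝ) + ((β : ℝ) / (2 * N)) * (e / P.G) + ((α : ℝ) / (2 * N)) * (e / P.G) ^ 2 / 2) ^ 2 +
      ((f : ℝ) / 2 + (β : ℝ) / (2 * N) + ((α : ℝ) / (2 * N)) * (e / P.G)) ^ 2 < 2048 ^ 2 := by
  have h1 : (ρ * (4 * (N * (P.G * P.G))) + 2 * (β * (e * P.G)) + α * (e * e)) *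
      (ρ * (4 * (N * (P.G * P.G))) + 2 * (β * (e * P.G)) + α * (e * e)) +
      (2 * P.G * (f * (N * P.G) + β * P.G + α * e)) * (2 * P.G * (f * (N * P.G) + β * P.G + α * e)) <
      (8192 * (N * (P.G * P.G))) ^ 2 := by
    exact blt_true h
  have hNR : (0 : ℝ) < N := by exact_mod_cast hN
  have hG : (0 : ℝ) < P.G := by exact_mod_cast hPG
  have h2 : (((ρ : ℝ) * (4 * (N * (P.G * P.G))) + 2 * (β * (e * P.G)) + α * (e * e)) *
      (ρ * (4 * (N * (P.G * P.G))) + 2 * (β * (e * P.G)) + α * (e * e)) +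
      (2 * P.G * (f * (N * P.G) + β * P.G + α * e)) * (2 * P.G * (f * (N * P.G) + β * P.G + α * e))) <
      (8192 * (N * (P.G * P.G))) ^ 2 := by exact_mod_cast h1
  have e1 : (ρ : ℝ) + ((β : ℝ) / (2 * N)) * (e / P.G) + ((α : ℝ) / (2 * N)) * (e / P.G) ^ 2 / 2 =
      ((ρ : ℝ) * (4 * (N * (P.G * P.G))) + 2 * (β * (e * P.G)) + α * (e * e)) /
        (4 * (N * (P.G * P.G))) := by
    field_simp
    ring
  have e2 : (f : ℝ) / 2 + (β : ℝ) / (2 * N) + ((α : ℝ) / (2 * N)) * (e / P.G) =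
      (2 * P.G * (f * (N * P.G) + β * P.G + α * e)) / (4 * (N * (P.G * P.G))) := by
    field_simp
    ring
  rw [e1, e2, div_pow, div_pow, ← add_div, div_lt_iff₀ (by positivity)]
  calc _ = _ := by ring
    _ < _ := h2
    _ = _ := by ring

theorem winOK_spec {α N ρ f : ℕ} (hN : 0 < N) (h : winOK P α N ρ f = true) :
    (α : ℝ) / (2 * N) + ρ + f / 2 ≤ P.H := by
  have h1 : α + N * (2 * ρ + f) ≤ 2 * (N * P.H) := ble_true h
  have hNR : (0 : ℝ) < N := by exact_mod_cast hN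
  have h2 : (α : ℝ) + N * (2 * ρ + f) ≤ 2 * (N * P.H) := by exact_mod_cast h1
  have e1 : (α : ℝ) / (2 * N) + ρ + f / 2 = (α + N * (2 * ρ + f)) / (2 * N) := by
    field_simp
    ring
  rw [e1, div_le_iff₀ (by positivity)]
  linarith

theorem adv_spec (hPH : P.H ≤ 4096 * 60) {x y N ρ f R : ℕ} (hN : 0 < N) (hw : winOK P (absd x y) N ρ f = true) {z : ℝ}
    (hz0 : (R : ℝ) ≤ z * (2 * N)) (hz1 : z * (2 * N) < (adv (loOf x y N ρ) N ρ R : ℕ)) :
    ∃ k : ℤ, |z - k * 4096 - ((x : ℝ) - y) / (2 * N)| ≤ ρ := by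
  have hNR : (0 : ℝ) < N := by exact_mod_cast hN
  have h1 : absd x y + N * (2 * ρ + f) ≤ 2 * (N * P.H) := ble_true hw
  have hab : absd x y = (x - y) + (y - x) := rfl
  have hHH := hPH
  have hNH : N * P.H ≤ N * (4096 * 60) := Nat.mul_le_mul_left _ hHH
  have hNρ : N * (2 * ρ + f) = 2 * (N * ρ) + N * f := by ring
  rw [hab, hNρ] at h1
  -- natural number facts
  set lo : ℕ := loOf x y N ρ with hlo
  have hlo' : lo = x + 524288 * N - y - 2 * (N * ρ) := rfl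
  have hloZ : (lo : ℤ) = (x : ℤ) - y + 524288 * N - 2 * (N * ρ) := by
    rw [hlo']
    have : 2 * (N * ρ) ≤ x + 524288 * N - y := by
      omega
    have h3 : y ≤ x + 524288 * N := by omega
    rw [Nat.cast_sub this, Nat.cast_sub h3]
    push_cast
    ring
  have hlo2 : lo ≤ R + 128 * (8192 * N) := by omega
  set W : ℕ := 8192 * N with hW
  have hWpos : 0 < W := by omega
  set g : ℕ := (R + 128 * W - lo) % W with hg
  have hadv : adv lo N ρ R = cond (Nat.ble g R) (R + 4 * (N * ρ) - g) 0 := rfl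
  rw [hadv] at hz1
  cases hgR : Nat.ble g R with
  | false =>
    rw [hgR] at hz1
    simp only [cond_false, Nat.cast_zero] at hz1
    have : (0 : ℝ) ≤ R := Nat.cast_nonneg _
    linarith
  | true =>
    rw [hgR] at hz1
    simp only [cond_true] at hz1
    have hgR' : g ≤ R := ble_true hgR
    have hq := Nat.div_add_mod (R + 128 * W - lo) W
    rw [← hg] at hq
    set q : ℕ := (R + 128 * W - lo) / W with hqd
    have hqZ : (W : ℤ) * q + g = R + 128 * W - lo := by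
      have : ((W * q + g : ℕ) : ℤ) = ((R + 128 * W - lo : ℕ) : ℤ) := by rw [hq]
      rw [Nat.cast_sub hlo2] at this
      push_cast at this
      linarith
    refine ⟨(q : ℤ) - 64, ?_⟩
    have h5 : ((R : ℝ) - g) = (x - y) - 2 * (N * ρ) + ((q : ℝ) - 64) * (8192 * N) := by
      have hWZ : (W : ℤ) = 8192 * N := by rw [hW]; push_cast; ring
      have : (R : ℤ) - g = (x - y) - 2 * (N * ρ) + ((q : ℤ) - 64) * (8192 * N) := by
        rw [hloZ, hWZ] at hqZ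
        linarith
      exact_mod_cast this
    have h6 : z * (2 * N) < (R : ℝ) - g + 4 * (N * ρ) := by
      have : ((R + 4 * (N * ρ) - g : ℕ) : ℝ) = (R : ℝ) + 4 * (N * ρ) - g := by
        rw [Nat.cast_sub (by omega)]
        push_cast
        ring
      rw [this] at hz1
      linarith
    have h7 : (0 : ℝ) ≤ g := Nat.cast_nonneg _
    have e1 : z - ((q : ℤ) - 64 : ℤ) * 4096 - ((x : ℝ) - y) / (2 * N) =
        (z * (2 * N) - ((x : ℝ) - y) - ((q : ℝ) - 64) * (8192 * N)) / (2 * N) := by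
      push_cast
      field_simp
      ring
    rw [e1, abs_div, abs_of_pos (by positivity : (0 : ℝ) < 2 * N), div_le_iff₀ (by positivity),
      abs_le]
    constructor <;> linarith

theorem stepA_spec (hPG : 0 < P.G) (hPH : P.H ≤ 4096 * 60) {Cn SP SM N P1 M1 P2 M2 ρ f e R : ℕ} (hN : 0 < N)
    {c s px py qy X Y : ℝ} (hcs : c ^ 2 + s ^ 2 = 1) (hc : |c| ≤ 1) (hs : |s| ≤ 1)
    (hcs0 : ((Cn : ℝ) / N) ^ 2 + (((SP : ℝ) - SM) / N) ^ 2 = 1)
    (hX : X - px = ((P1 : ℝ) - M1) / 2) (hY : Y - qy = ((P2 : ℝ) - M2) / 2)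
    (hy : |py - qy| ≤ (f : ℝ) / 2)
    (hd : (c - (Cn : ℝ) / N) ^ 2 + (s - ((SP : ℝ) - SM) / N) ^ 2 ≤ ((e : ℝ) / P.G) ^ 2)
    {z : ℝ} (hz0 : (R : ℝ) ≤ z * (2 * N))
    (hz1 : z * (2 * N) < (stepA P Cn SP SM N P1 M1 P2 M2 ρ f e R : ℕ)) :
    ∃ k : ℤ, |z - (py - qy) * s - k * 4096| ≤ P.H ∧
      (px + (z - (py - qy) * s - k * 4096) * c - X) ^ 2 +
        (py + (z - (py - qy) * s - k * 4096) * s - Y) ^ 2 < 2048 ^ 2 := by
  have hNR : (0 : ℝ) < N := by exact_mod_cast hN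
  set x : ℕ := P1 * Cn + P2 * SP + M2 * SM with hx
  set y : ℕ := M1 * Cn + M2 * SP + P2 * SM with hyy
  set x' : ℕ := P2 * Cn + P1 * SM + M1 * SP with hx'
  set y' : ℕ := M2 * Cn + P1 * SP + M1 * SM with hy'
  have hst : stepA P Cn SP SM N P1 M1 P2 M2 ρ f e R =
      cond (and (discOK P (absd x y) (absd x' y') N ρ f e) (winOK P (absd x y) N ρ f))
        (adv (loOf x y N ρ) N ρ R) 0 := rfl
  rw [hst] at hz1
  have hR0 : (0 : ℝ) ≤ R := Nat.cast_nonneg _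
  cases hdo : discOK P (absd x y) (absd x' y') N ρ f e with
  | false =>
    rw [hdo] at hz1
    simp only [Bool.false_and, cond_false, Nat.cast_zero] at hz1
    linarith
  | true =>
  cases hwo : winOK P (absd x y) N ρ f with
  | false =>
    rw [hdo, hwo] at hz1
    simp only [Bool.and_false, cond_false, Nat.cast_zero] at hz1
    linarith
  | true =>
    rw [hdo, hwo] at hz1
    simp only [Bool.and_self, cond_true] at hz1
    obtain ⟨k, hk⟩ := adv_spec hPH hN hwo hz0 hz1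
    have h1 := discOK_spec hPG hN hdo
    have h2 := winOK_spec hN hwo
    rw [absd_cast] at h1 h2
    rw [absd_cast] at h1
    set A : ℝ := ((x : ℝ) - y) / (2 * N) with hA
    set D : ℝ := ((x' : ℝ) - y') / (2 * N) with hD
    have hAabs : |(x : ℝ) - y| / (2 * N) = |A| := by
      rw [hA, abs_div, abs_of_pos (by positivity : (0 : ℝ) < 2 * N)]
    have hDabs : |(x' : ℝ) - y'| / (2 * N) = |D| := by
      rw [hD, abs_div, abs_of_pos (by positivity : (0 : ℝ) < 2 * N)]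
    rw [hAabs, hDabs] at h1
    rw [hAabs] at h2
    have hAeq : A = (X - px) * ((Cn : ℝ) / N) + (Y - qy) * (((SP : ℝ) - SM) / N) := by
      rw [hX, hY, hA, hx, hyy]
      push_cast
      field_simp
      ring
    have hDeq : D = -(X - px) * (((SP : ℝ) - SM) / N) + (Y - qy) * ((Cn : ℝ) / N) := by
      rw [hX, hY, hD, hx', hy']
      push_cast
      field_simp
      ring
    have hG : (0 : ℝ) < P.G := by exact_mod_cast hPG
    have hin : ((ρ : ℝ) + |D| * (e / P.G) + |A| * ((e : ℝ) / P.G) ^ 2 / 2) ^ 2 +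
        ((f : ℝ) / 2 + |D| + |A| * (e / P.G)) ^ 2 < 2048 ^ 2 := h1
    have h3 := disc_hit (σ := z - k * 4096 - A) hcs hcs0 hAeq hDeq hy (by positivity) hd
      (τ := -(py - qy) * s) rfl hk hc hin
    have e1 : A + (z - k * 4096 - A) + -(py - qy) * s = z - (py - qy) * s - k * 4096 := by ring
    rw [e1] at h3
    refine ⟨k, ?_, h3⟩
    rw [← e1]
    have h4 : |-(py - qy) * s| ≤ (f : ℝ) / 2 := by
      rw [abs_mul, abs_neg]
      calc |py - qy| * |s| ≤ |py - qy| * 1 := mul_le_mul_of_nonneg_left hs (abs_nonneg _)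
        _ ≤ _ := by linarith
    calc |A + (z - k * 4096 - A) + -(py - qy) * s|
        ≤ |A + (z - k * 4096 - A)| + |-(py - qy) * s| := abs_add_le _ _
      _ ≤ |A| + |z - k * 4096 - A| + |-(py - qy) * s| := by gcongr; exact abs_add_le _ _
      _ ≤ |A| + ρ + f / 2 := by gcongr
      _ ≤ P.H := h2

theorem step_spec (hPG : 0 < P.G) (hPH : P.H ≤ 4096 * 60) {Cn SP SM N sx yy f e cc R : ℕ} (hN : 0 < N)
    {c s py : ℝ} (hcs : c ^ 2 + s ^ 2 = 1) (hc : |c| ≤ 1) (hs : |s| ≤ 1)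
    (hcs0 : ((Cn : ℝ) / N) ^ 2 + (((SP : ℝ) - SM) / N) ^ 2 = 1)
    (hy : |py - (yy : ℝ) / 2| ≤ (f : ℝ) / 2)
    (hd : (c - (Cn : ℝ) / N) ^ 2 + (s - ((SP : ℝ) - SM) / N) ^ 2 ≤ ((e : ℝ) / P.G) ^ 2)
    {z : ℝ} (hz0 : (R : ℝ) ≤ z * (2 * N))
    (hz1 : z * (2 * N) < (step P Cn SP SM N sx yy f e cc R : ℕ)) :
    ∃ k : ℤ, |z - (py - (yy : ℝ) / 2) * s - k * 4096| ≤ P.H ∧
      Red P (sx + (z - (py - (yy : ℝ) / 2) * s - k * 4096) * c)
        (py + (z - (py - (yy : ℝ) / 2) * s - k * 4096) * s) := by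
  have hR0 : (0 : ℝ) ≤ R := Nat.cast_nonneg _
  have hst : step P Cn SP SM N sx yy f e cc R =
    cond (Nat.blt (cI cc) P.M) (stepA P Cn SP SM N (pX P cc) (mX P sx) (pY P cc) (mY P yy) (cR cc) f e R) 0 :=
      rfl
  rw [hst] at hz1
  cases hi : Nat.blt (cI cc) P.M with
  | false =>
    rw [hi] at hz1
    simp only [cond_false, Nat.cast_zero] at hz1
    linarith
  | true =>
    rw [hi] at hz1
    simp only [cond_true] at hz1
    have hi' := blt_true hi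
    obtain ⟨k, hk1, hk2⟩ := stepA_spec hPG hPH hN hcs hc hs hcs0
      (px := (sx : ℝ)) (py := py) (qy := (yy : ℝ) / 2)
      (X := (ctrX P (cI cc) : ℝ) + (((cA cc : ℤ) - 32 : ℤ) : ℝ) * P.L)
      (Y := (ctrY P (cI cc) : ℝ) + (((cB cc : ℤ) - 32 : ℤ) : ℝ) * P.L)
      (by
        have e1 : ((pX P cc : ℕ) : ℝ) = 2 * (ctrX P (cI cc) + cA cc * P.L) := by
          simp only [pX, Nat.mul_eq, Nat.add_eq]
          push_cast; ring
        have e2 : ((mX P sx : ℕ) : ℝ) = 2 * (32 * P.L + sx) := by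
          simp only [mX, Nat.mul_eq, Nat.add_eq]
          push_cast; ring
        rw [e1, e2]; push_cast; ring)
      (by
        have e1 : ((pY P cc : ℕ) : ℝ) = 2 * (ctrY P (cI cc) + cB cc * P.L) := by
          simp only [pY, Nat.mul_eq, Nat.add_eq]
          push_cast; ring
        have e2 : ((mY P yy : ℕ) : ℝ) = 64 * P.L + yy := by
          simp only [mY, Nat.mul_eq, Nat.add_eq]
          push_cast; ring
        rw [e1, e2]; push_cast; ring)
      hy hd hz0 hz1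
    exact ⟨k, hk1, cI cc, hi', (cA cc : ℤ) - 32, (cB cc : ℤ) - 32, hk2⟩

theorem chain_spec (hPG : 0 < P.G) (hPH : P.H ≤ 4096 * 60) {Cn SP SM N sx yy f e : ℕ} (hN : 0 < N)
    {c s py : ℝ} (hcs : c ^ 2 + s ^ 2 = 1) (hc : |c| ≤ 1) (hs : |s| ≤ 1)
    (hcs0 : ((Cn : ℝ) / N) ^ 2 + (((SP : ℝ) - SM) / N) ^ 2 = 1)
    (hy : |py - (yy : ℝ) / 2| ≤ (f : ℝ) / 2)
    (hd : (c - (Cn : ℝ) / N) ^ 2 + (s - ((SP : ℝ) - SM) / N) ^ 2 ≤ ((e : ℝ) / P.G) ^ 2)
    (l : List ℕ) : ∀ (R : ℕ) {z : ℝ}, (R : ℝ) ≤ z * (2 * N) →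
      z * (2 * N) < (chain P Cn SP SM N sx yy f e l R : ℕ) →
    ∃ k : ℤ, |z - (py - (yy : ℝ) / 2) * s - k * 4096| ≤ P.H ∧
      Red P (sx + (z - (py - (yy : ℝ) / 2) * s - k * 4096) * c)
        (py + (z - (py - (yy : ℝ) / 2) * s - k * 4096) * s) := by
  induction l with
  | nil =>
    intro R z h0 h1
    have : chain P Cn SP SM N sx yy f e [] R = R := rfl
    rw [this] at h1
    linarith
  | cons cc cs ih =>
    intro R z h0 h1
    have hch : chain P Cn SP SM N sx yy f e (cc :: cs) R =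
      chain P Cn SP SM N sx yy f e cs (step P Cn SP SM N sx yy f e cc R) := rfl
    rw [hch] at h1
    by_cases hz : z * (2 * N) < (step P Cn SP SM N sx yy f e cc R : ℕ)
    · exact step_spec hPG hPH hN hcs hc hs hcs0 hy hd h0 hz
    · exact ih _ (not_lt.1 hz) h1

theorem exists_shift (z w : ℝ) : ∃ k : ℤ, w ≤ z + k * 4096 ∧ z + k * 4096 < w + 4096 := by
  refine ⟨⌈(w - z) / 4096⌉, ?_, ?_⟩
  · have := Int.le_ceil ((w - z) / 4096)
    linarith
  · have := Int.ceil_lt_add_one ((w - z) / 4096)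
    linarith

theorem leafOK_spec (hPG : 0 < P.G) (hPH : P.H ≤ 4096 * 60) {l : List ℕ} {sx ylo yhi ulo uhi : ℕ}
    (h : leafOK P l sx ylo yhi ulo uhi = true) {y u : ℝ} (hy0 : (ylo : ℝ) ≤ y) (hy1 : y ≤ yhi)
    (hu0 : (ulo : ℝ) ≤ P.A + P.G * u) (hu1 : P.A + P.G * u ≤ (uhi : ℝ)) : LineOK P sx y u := by
  have hG : (0 : ℝ) < P.G := by exact_mod_cast hPG
  set U : ℕ := absd (ulo + uhi) (2 * P.A) with hU
  set Up : ℕ := ulo + uhi - 2 * P.A with hUp
  set Um : ℕ := 2 * P.A - (ulo + uhi) with hUm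
  have hUU : U = Up + Um := rfl
  set N : ℕ := 4 * (P.G * P.G) + U * U with hN
  set Cn : ℕ := 4 * (P.G * P.G) - U * U with hCn
  have hsplit : (Nat.ble U (2 * P.G) && leafB P l (start P Cn (4 * (Up * P.G)) (4 * (Um * P.G)) N sx
      (ylo + yhi) (l.headD 0)) Cn (4 * (Up * P.G)) (4 * (Um * P.G)) N sx (ylo + yhi) (yhi - ylo)
      (uhi - ulo)) = true := h
  rw [Bool.and_eq_true] at hsplit
  obtain ⟨hUG, hleaf⟩ := hsplit
  have hUG' : U ≤ 2 * P.G := ble_true hUG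
  set R0 : ℕ := start P Cn (4 * (Up * P.G)) (4 * (Um * P.G)) N sx (ylo + yhi) (l.headD 0) with hR0
  have hend : R0 + 8192 * N ≤ chain P Cn (4 * (Up * P.G)) (4 * (Um * P.G)) N sx (ylo + yhi)
      (yhi - ylo) (uhi - ulo) l R0 := ble_true hleaf
  have hNpos : 0 < N := by
    have := hPG
    positivity
  have hNR : (0 : ℝ) < N := by exact_mod_cast hNpos
  -- the reference direction
  set u0 : ℝ := ((Up : ℝ) - Um) / (2 * P.G) with hu0d
  have hUsq : (U : ℝ) ^ 2 = ((Up : ℝ) - Um) ^ 2 := by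
    have hz : Up * Um = 0 := by
      rcases le_total (ulo + uhi) (2 * P.A) with h | h
      · have : Up = 0 := by omega
        rw [this, zero_mul]
      · have : Um = 0 := by omega
        rw [this, mul_zero]
    have hz' : (Up : ℝ) * Um = 0 := by exact_mod_cast hz
    rw [hUU]
    push_cast
    linear_combination (4 : ℝ) * hz'
  have hUdiff : (Up : ℝ) - Um = (ulo : ℝ) + uhi - 2 * P.A := by
    rcases le_total (ulo + uhi) (2 * P.A) with h | h
    · have h1 : Up = 0 := by omega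
      have h2 : (Um : ℝ) = 2 * P.A - (ulo + uhi) := by
        rw [hUm, Nat.cast_sub h]; push_cast; ring
      rw [h1, h2]; push_cast; ring
    · have h1 : Um = 0 := by omega
      have h2 : (Up : ℝ) = (ulo + uhi) - 2 * P.A := by
        rw [hUp, Nat.cast_sub h]; push_cast; ring
      rw [h1, h2]; push_cast; ring
  have hNcast : (N : ℝ) = (2 * P.G) ^ 2 * (1 + u0 ^ 2) := by
    rw [hN, hu0d]
    push_cast
    rw [div_pow, ← hUsq]
    field_simp
    ring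
  have hCncast : (Cn : ℝ) = (2 * P.G) ^ 2 * (1 - u0 ^ 2) := by
    have hle : U * U ≤ 4 * (P.G * P.G) := by nlinarith
    rw [hCn, hu0d, Nat.cast_sub hle]
    push_cast
    rw [div_pow, ← hUsq]
    field_simp
    ring
  have hc0 : (Cn : ℝ) / N = (1 - u0 ^ 2) / (1 + u0 ^ 2) := by
    rw [hNcast, hCncast]
    have h1 : (0 : ℝ) < 1 + u0 ^ 2 := by positivity
    field_simp
  have hs0 : (((4 * (Up * P.G) : ℕ) : ℝ) - ((4 * (Um * P.G) : ℕ) : ℝ)) / N =
      2 * u0 / (1 + u0 ^ 2) := by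
    rw [hNcast]
    have h1 : (0 : ℝ) < 1 + u0 ^ 2 := by positivity
    have h2 : (Up : ℝ) - Um = 2 * P.G * u0 := by rw [hu0d]; field_simp
    push_cast
    have h3 : 4 * ((Up : ℝ) * P.G) - 4 * (Um * P.G) = 4 * P.G * (2 * P.G * u0) := by
      rw [← h2]; ring
    rw [h3]
    field_simp
    ring
  have hcs0 := circ u0
  rw [← hc0, ← hs0] at hcs0
  have hule : (ulo : ℝ) ≤ uhi := hu0.trans hu1
  have hule' : ulo ≤ uhi := by exact_mod_cast hule
  have hyle : (ylo : ℝ) ≤ yhi := hy0.trans hy1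
  have hyle' : ylo ≤ yhi := by exact_mod_cast hyle
  have hd : (dc u - (Cn : ℝ) / N) ^ 2 +
      (ds u - (((4 * (Up * P.G) : ℕ) : ℝ) - ((4 * (Um * P.G) : ℕ) : ℝ)) / N) ^ 2 ≤
      (((uhi - ulo : ℕ) : ℝ) / P.G) ^ 2 := by
    rw [hc0, hs0]
    refine (chord_le u u0).trans ?_
    rw [Nat.cast_sub hule']
    have h1 : |u - u0| ≤ ((uhi : ℝ) - ulo) / (2 * P.G) := by
      have e1 : u - u0 = (2 * (P.A + P.G * u) - (ulo + uhi)) / (2 * P.G) := by
        rw [hu0d, hUdiff]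
        field_simp
        ring
      rw [e1, abs_div, abs_of_pos (by positivity : (0 : ℝ) < 2 * P.G)]
      apply div_le_div_of_nonneg_right _ (by positivity)
      rw [abs_le]
      constructor <;> linarith
    have h2 : |2 * (u - u0)| ≤ ((uhi : ℝ) - ulo) / P.G := by
      rw [abs_mul, abs_of_pos (by norm_num : (0 : ℝ) < 2)]
      calc 2 * |u - u0| ≤ 2 * (((uhi : ℝ) - ulo) / (2 * P.G)) := by gcongr
        _ = _ := by field_simp
    calc (2 * (u - u0)) ^ 2 = |2 * (u - u0)| ^ 2 := (sq_abs _).symm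
      _ ≤ _ := by gcongr
  have hyy : |y - ((ylo + yhi : ℕ) : ℝ) / 2| ≤ ((yhi - ylo : ℕ) : ℝ) / 2 := by
    rw [Nat.cast_sub hyle', abs_le]
    push_cast
    constructor <;> linarith
  have hcs : dc u ^ 2 + ds u ^ 2 = 1 := circ u
  have hc1 : |dc u| ≤ 1 := by
    apply abs_le_of_sq_le_sq _ zero_le_one
    have := sq_nonneg (ds u)
    linarith
  have hs1 : |ds u| ≤ 1 := by
    apply abs_le_of_sq_le_sq _ zero_le_one
    have := sq_nonneg (dc u)
    linarith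
  intro z
  -- choose the representative of the phase
  obtain ⟨k, hk1, hk2⟩ := exists_shift (z + (y - ((ylo + yhi : ℕ) : ℝ) / 2) * ds u)
    ((R0 : ℝ) / (2 * N))
  have hz0 : (R0 : ℝ) ≤ (z + (y - ((ylo + yhi : ℕ) : ℝ) / 2) * ds u + k * 4096) * (2 * N) := by
    rwa [div_le_iff₀ (by positivity)] at hk1
  have hz1 : (z + (y - ((ylo + yhi : ℕ) : ℝ) / 2) * ds u + k * 4096) * (2 * N) <
      (chain P Cn (4 * (Up * P.G)) (4 * (Um * P.G)) N sx (ylo + yhi)
      (yhi - ylo) (uhi - ulo) l R0 : ℕ) := by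
    have h1 : ((R0 : ℝ) + 8192 * N) ≤ (chain P Cn (4 * (Up * P.G)) (4 * (Um * P.G)) N sx
        (ylo + yhi) (yhi - ylo) (uhi - ulo) l R0 : ℕ) := by exact_mod_cast hend
    refine lt_of_lt_of_le ?_ h1
    have h2 : (R0 : ℝ) + 8192 * N = ((R0 : ℝ) / (2 * N) + 4096) * (2 * N) := by
      field_simp
      ring
    rw [h2]
    exact mul_lt_mul_of_pos_right hk2 (by positivity)
  obtain ⟨k', hk3, hk4⟩ := chain_spec hPG hPH hNpos hcs hc1 hs1 hcs0 hyy hd l R0 hz0 hz1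
  refine ⟨k - k', ?_⟩
  have e1 : z + (y - ((ylo + yhi : ℕ) : ℝ) / 2) * ds u + k * 4096 -
      (y - ((ylo + yhi : ℕ) : ℝ) / 2) * ds u - k' * 4096 = z + ((k - k' : ℤ) : ℝ) * 4096 := by
    push_cast
    ring
  rw [e1] at hk3 hk4
  exact ⟨hk3, hk4⟩

theorem check_spec (hPG : 0 < P.G) (hPH : P.H ≤ 4096 * 60) (t : Tr) :
    ∀ {sx ylo yhi ulo uhi : ℕ}, check P t sx ylo yhi ulo uhi = true →
    ∀ {y u : ℝ}, (ylo : ℝ) ≤ y → y ≤ yhi → (ulo : ℝ) ≤ P.A + P.G * u →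
      P.A + P.G * u ≤ (uhi : ℝ) → LineOK P sx y u := by
  induction t with
  | leaf l =>
    intro sx ylo yhi ulo uhi h y u h1 h2 h3 h4
    exact leafOK_spec hPG hPH h h1 h2 h3 h4
  | ys m a b iha ihb =>
    intro sx ylo yhi ulo uhi h y u h1 h2 h3 h4
    have h' : (check P a sx ylo m ulo uhi && check P b sx m yhi ulo uhi) = true := h
    rw [Bool.and_eq_true] at h'
    rcases le_total y (m : ℝ) with hm | hm
    · exact iha h'.1 h1 hm h3 h4
    · exact ihb h'.2 hm h2 h3 h4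
  | us m a b iha ihb =>
    intro sx ylo yhi ulo uhi h y u h1 h2 h3 h4
    have h' : (check P a sx ylo yhi ulo m && check P b sx ylo yhi m uhi) = true := h
    rw [Bool.and_eq_true] at h'
    rcases le_total (P.A + P.G * u) (m : ℝ) with hm | hm
    · exact iha h'.1 h1 h2 h3 hm
    · exact ihb h'.2 h1 h2 hm h4

end Soundness

end Pool.Agent.Lib.MP_2b7a4a_co
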