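import Pool.Agent.Lib.MP_2b7a4a_co.Core

namespace Pool.Agent.Lib.MP_2b7a4a_co

/-- Rotation test: the set of centres is invariant under a quarter turn modulo the period. -/
def RotOK (P : Par) : Prop :=
  ∀ i < P.M, ∃ j < P.M, (ctrX P j + ctrY P i) % P.L = 0 ∧ ctrY P j % P.L = ctrX P i % P.L

/-- Separation test. -/
def Sep4 (P : Par) (i j e f : ℕ) : Prop :=
  (i = j ∧ e = 1 ∧ f = 1) ∨
      8192 ^ 2 ≤ ((ctrX P i : ℤ) - ctrX P j + ((e : ℤ) - 1) * P.L) ^ 2 +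
        ((ctrY P i : ℤ) - ctrY P j + ((f : ℤ) - 1) * P.L) ^ 2

instance (P : Par) (i j e f : ℕ) : Decidable (Sep4 P i j e f) := by
  unfold Sep4; infer_instance

def SepOK (P : Par) : Prop :=
  ∀ i < P.M, ctrX P i < P.L ∧ ctrY P i < P.L ∧
    ∀ j < P.M, ∀ e < (3 : ℕ), ∀ f < (3 : ℕ), Sep4 P i j e f

instance (P : Par) : Decidable (SepOK P) := by
  unfold SepOK; infer_instance

instance (P : Par) : Decidable (RotOK P) := by
  unfold RotOK; infer_instance

variable {P : Par}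

theorem red_shift {x y : ℝ} (h : Red P x y) (a b : ℤ) : Red P (x + a * P.L) (y + b * P.L) := by
  obtain ⟨i, hi, a', b', h⟩ := h
  refine ⟨i, hi, a' + a, b' + b, ?_⟩
  calc _ = (x - ((ctrX P i : ℝ) + a' * P.L)) ^ 2 + (y - ((ctrY P i : ℝ) + b' * P.L)) ^ 2 := by
        push_cast; ring
    _ < _ := h

theorem red_rot (hR : RotOK P) {x y : ℝ} (h : Red P x y) : Red P (-y) x := by
  obtain ⟨i, hi, a, b, h⟩ := h
  obtain ⟨j, hj, h1, h2⟩ := hR i hi
  obtain ⟨k, hk⟩ := Nat.dvd_of_mod_eq_zero h1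
  have h2' : (ctrY P j : ℤ) % P.L = (ctrX P i : ℤ) % P.L := by exact_mod_cast h2
  obtain ⟨l, hl⟩ :=
    Int.ModEq.dvd (a := (ctrX P i : ℤ)) (b := (ctrY P j : ℤ)) (n := (P.L : ℤ)) h2'.symm
  refine ⟨j, hj, -b - k, a - l, ?_⟩
  have hkR : (ctrX P j : ℝ) + ctrY P i = P.L * k := by exact_mod_cast hk
  have hlR : (ctrY P j : ℝ) - ctrX P i = P.L * l := by exact_mod_cast hl
  calc _ = (x - ((ctrX P i : ℝ) + a * P.L)) ^ 2 + (y - ((ctrY P i : ℝ) + b * P.L)) ^ 2 := by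
        have e1 : (ctrX P j : ℝ) = P.L * k - ctrY P i := by linarith
        have e2 : (ctrY P j : ℝ) = P.L * l + ctrX P i := by linarith
        rw [e1, e2]
        push_cast
        ring
    _ < _ := h

theorem lineOK_shift {x y u : ℝ} (h : LineOK P x y u) (a b : ℤ) :
    LineOK P (x + a * P.L) (y + b * P.L) u := by
  intro z
  obtain ⟨n, h1, h2⟩ := h z
  refine ⟨n, h1, ?_⟩
  have := red_shift h2 a b
  convert this using 1 <;> ring

theorem lineOK_neg (hR : RotOK P) {x y u : ℝ} (h : LineOK P x y u) :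
    LineOK P (-x) (-y) u := by
  intro z
  obtain ⟨n, h1, h2⟩ := h (-z)
  refine ⟨-n, ?_, ?_⟩
  · push_cast
    rw [← abs_neg]
    convert h1 using 2
    ring
  · have := red_rot hR (red_rot hR h2)
    convert this using 1
    · push_cast; ring
    · push_cast; ring

/-- All lines through vertical sections are fine. -/
theorem lineOK_all (hR : RotOK P) (hL : 0 < P.L) {ns w : ℕ} (hns : 0 < ns) (hw : ns * w = P.L)
    (hsec : ∀ σ ≤ ns / 2, ∀ y u : ℝ, 0 ≤ y → y ≤ P.L → 0 ≤ P.A + P.G * u →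
      P.A + P.G * u ≤ 2 * P.A → LineOK P ((σ * w : ℕ) : ℝ) y u)
    (n : ℤ) (y u : ℝ) (hu0 : 0 ≤ P.A + P.G * u) (hu1 : P.A + P.G * u ≤ 2 * P.A) :
    LineOK P (n * w) y u := by
  have hLR : (0 : ℝ) < P.L := by exact_mod_cast hL
  -- sections with any ordinate
  have h1 : ∀ σ ≤ ns / 2, ∀ y : ℝ, LineOK P ((σ * w : ℕ) : ℝ) y u := by
    intro σ hσ y
    have h := hsec σ hσ (y - ⌊y / P.L⌋ * P.L) u
      (by have := Int.floor_le (y / P.L)
          rw [le_div_iff₀ hLR] at this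
          linarith)
      (by have := Int.lt_floor_add_one (y / P.L)
          rw [div_lt_iff₀ hLR] at this
          linarith) hu0 hu1
    have h' := lineOK_shift h 0 ⌊y / P.L⌋
    convert h' using 1 <;> push_cast <;> ring
  have hnsZ : (0 : ℤ) < ns := by exact_mod_cast hns
  set q : ℤ := n / ns with hq
  set r : ℤ := n % ns with hr
  have hr0 : 0 ≤ r := Int.emod_nonneg _ hnsZ.ne'
  have hr1 : r < ns := Int.emod_lt_of_pos _ hnsZ
  have hn : n = ns * q + r := (Int.mul_ediv_add_emod n ns).symm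
  have hwL : (ns : ℝ) * w = P.L := by exact_mod_cast hw
  rcases le_or_gt r ((ns / 2 : ℕ) : ℤ) with hle | hgt
  · obtain ⟨σ, hσ⟩ := Int.eq_ofNat_of_zero_le hr0
    have hσ' : σ ≤ ns / 2 := by rw [hσ] at hle; exact_mod_cast hle
    have h := lineOK_shift (h1 σ hσ' y) q 0
    convert h using 1
    · rw [hn, hσ]; push_cast; rw [← hwL]; ring
    · push_cast; ring
  · obtain ⟨σ, hσ⟩ := Int.eq_ofNat_of_zero_le (show 0 ≤ (ns : ℤ) - r by omega)
    have hσ' : σ ≤ ns / 2 := by omega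
    have h := lineOK_shift (lineOK_neg hR (h1 σ hσ' (-y))) (q + 1) 0
    convert h using 1
    · have : (r : ℝ) = ns - σ := by
        have : (σ : ℤ) = ns - r := hσ.symm
        have h2 : (σ : ℝ) = ns - r := by exact_mod_cast this
        linarith
      rw [hn]; push_cast; rw [this, ← hwL]; ring
    · push_cast; ring

/-- Every unit-step progression with direction in the first sector meets the red set. -/
theorem hit_sector (hR : RotOK P) (hL : 0 < P.L) (hG : 0 < P.G) {ns w K : ℕ} (hns : 0 < ns)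
    (hwpos : 0 < w) (hw : ns * w = P.L)
    (hAG : P.G ^ 2 ≤ P.A ^ 2 + 2 * P.A * P.G)
    (hK : w * 5000 + 7071 * P.H < 7071 * 2048 * (K + 1))
    (hsec : ∀ σ ≤ ns / 2, ∀ y u : ℝ, 0 ≤ y → y ≤ P.L → 0 ≤ P.A + P.G * u →
      P.A + P.G * u ≤ 2 * P.A → LineOK P ((σ * w : ℕ) : ℝ) y u)
    {c s : ℝ} (hcs : c ^ 2 + s ^ 2 = 1) (hc : |s| ≤ c) (x0 y0 : ℝ) :
    ∃ j : ℕ, j < K ∧ Red P (x0 + 4096 * j * c) (y0 + 4096 * j * s) := by
  have hc0 : 0 ≤ c := (abs_nonneg s).trans hc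
  have hs2 : s ^ 2 ≤ c ^ 2 := by rw [← sq_abs s]; gcongr
  have hc2 : 1 / 2 ≤ c ^ 2 := by linarith
  have hc3 : 7071 / 10000 ≤ c := by
    by_contra hcon
    have h1 : c < 7071 / 10000 := not_le.1 hcon
    nlinarith
  have hcpos : 0 < c := by linarith
  set u : ℝ := s / (1 + c) with hu
  have h1c : 0 < 1 + c := by linarith
  have hu2 : 1 + u ^ 2 = 2 / (1 + c) := by
    rw [hu]; field_simp; linear_combination hcs
  have hdc : dc u = c := by
    unfold dc
    rw [hu2]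
    have : 1 - u ^ 2 = 2 * c / (1 + c) := by
      have : u ^ 2 = 2 / (1 + c) - 1 := by linarith
      rw [this]; field_simp; ring
    rw [this]; field_simp
  have hds : ds u = s := by
    unfold ds
    rw [hu2, hu]; field_simp
  have hGR : (0 : ℝ) < P.G := by exact_mod_cast hG
  have hAR : (0 : ℝ) ≤ P.A := Nat.cast_nonneg _
  have hAG' : (P.G : ℝ) ^ 2 ≤ P.A ^ 2 + 2 * P.A * P.G := by exact_mod_cast hAG
  have habs : |u| ^ 2 + 2 * |u| ≤ 1 := by
    have e1 : |u| = |s| / (1 + c) := by rw [hu, abs_div, abs_of_pos h1c]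
    have e2 : |u| ^ 2 = 2 / (1 + c) - 1 := by rw [sq_abs]; linarith
    rw [e2, e1]
    have : 2 * (|s| / (1 + c)) ≤ 2 * (c / (1 + c)) := by gcongr
    have e3 : 2 / (1 + c) - 1 + 2 * (c / (1 + c)) = 1 := by field_simp; ring
    linarith
  have hub : |u| * P.G ≤ P.A := by
    by_contra hcon
    have h1 : (P.A : ℝ) < |u| * P.G := not_le.1 hcon
    have h2 : (P.A : ℝ) ^ 2 + 2 * P.A * P.G < (|u| * P.G) ^ 2 + 2 * (|u| * P.G) * P.G := by
      have := mul_lt_mul_of_pos_right h1 hGR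
      nlinarith
    have h3 : (|u| * P.G) ^ 2 + 2 * (|u| * P.G) * P.G = (|u| ^ 2 + 2 * |u|) * (P.G : ℝ) ^ 2 := by
      ring
    have h4 : (|u| ^ 2 + 2 * |u|) * (P.G : ℝ) ^ 2 ≤ 1 * (P.G : ℝ) ^ 2 := by gcongr
    linarith
  have hu0 : 0 ≤ P.A + P.G * u := by
    have := neg_abs_le u
    nlinarith
  have hu1 : P.A + P.G * u ≤ 2 * P.A := by
    have := le_abs_self u
    nlinarith
  -- the crossing
  have hwR : (0 : ℝ) < w := by exact_mod_cast hwpos
  set mid : ℝ := 2048 * ((K : ℝ) - 1) with hmid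
  set n : ℤ := round ((x0 + mid * c) / w) with hn
  set tc : ℝ := (n * w - x0) / c with htc
  have h1 : |n * w - (x0 + mid * c)| ≤ w / 2 := by
    have := abs_sub_round ((x0 + mid * c) / w)
    rw [← hn] at this
    have e1 : n * w - (x0 + mid * c) = -(((x0 + mid * c) / w - n) * w) := by
      field_simp; ring
    rw [e1, abs_neg, abs_mul, abs_of_pos hwR]
    calc _ ≤ 1 / 2 * (w : ℝ) := by gcongr
      _ = _ := by ring
  have h2 : |tc - mid| ≤ w * (5000 / 7071) := by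
    have e1 : tc - mid = (n * w - (x0 + mid * c)) / c := by
      rw [htc]; field_simp; ring
    rw [e1, abs_div, abs_of_pos hcpos, div_le_iff₀ hcpos]
    calc _ ≤ (w : ℝ) / 2 := h1
      _ = w * (5000 / 7071) * (7071 / 10000) := by ring
      _ ≤ _ := by gcongr
  have hline := lineOK_all hR hL hns hw hsec n (y0 + tc * s) u hu0 hu1
  obtain ⟨m, hm1, hm2⟩ := hline (-tc)
  rw [hdc, hds] at hm2
  have hxx : (n : ℝ) * w = x0 + tc * c := by rw [htc]; field_simp; ring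
  have e1 : (n : ℝ) * w + (-tc + m * 4096) * c = x0 + 4096 * m * c := by rw [hxx]; ring
  have e2 : y0 + tc * s + (-tc + m * 4096) * s = y0 + 4096 * m * s := by ring
  rw [e1, e2] at hm2
  have hKR : (w : ℝ) * 5000 + 7071 * P.H < 7071 * 2048 * (K + 1) := by exact_mod_cast hK
  rw [abs_le] at hm1 h2
  have hmlo : (-1 : ℝ) < m := by linarith [hm1.1, hm1.2, h2.1, h2.2]
  have hmhi : (m : ℝ) < K := by linarith [hm1.1, hm1.2, h2.1, h2.2]
  have hm0 : 0 ≤ m := by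
    have : (-1 : ℤ) < m := by exact_mod_cast hmlo
    omega
  obtain ⟨j, rfl⟩ := Int.eq_ofNat_of_zero_le hm0
  refine ⟨j, by exact_mod_cast hmhi, ?_⟩
  exact_mod_cast hm2

/-- Every unit-step progression meets the red set. -/
theorem hit_all (hR : RotOK P) (hL : 0 < P.L) (hG : 0 < P.G) {ns w K : ℕ} (hns : 0 < ns)
    (hwpos : 0 < w) (hw : ns * w = P.L)
    (hAG : P.G ^ 2 ≤ P.A ^ 2 + 2 * P.A * P.G)
    (hK : w * 5000 + 7071 * P.H < 7071 * 2048 * (K + 1))
    (hsec : ∀ σ ≤ ns / 2, ∀ y u : ℝ, 0 ≤ y → y ≤ P.L → 0 ≤ P.A + P.G * u →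
      P.A + P.G * u ≤ 2 * P.A → LineOK P ((σ * w : ℕ) : ℝ) y u)
    {c s : ℝ} (hcs : c ^ 2 + s ^ 2 = 1) (x0 y0 : ℝ) :
    ∃ j : ℕ, j < K ∧ Red P (x0 + 4096 * j * c) (y0 + 4096 * j * s) := by
  have hrot : ∀ c s : ℝ, (∀ x0 y0 : ℝ, ∃ j : ℕ, j < K ∧
      Red P (x0 + 4096 * j * c) (y0 + 4096 * j * s)) →
      ∀ x0 y0 : ℝ, ∃ j : ℕ, j < K ∧ Red P (x0 + 4096 * j * (-s)) (y0 + 4096 * j * c) := by
    intro c s h x0 y0
    obtain ⟨j, hj, h1⟩ := h y0 (-x0)
    refine ⟨j, hj, ?_⟩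
    have := red_rot hR h1
    convert this using 1
    ring
  have hs := fun (c s : ℝ) (h1 : c ^ 2 + s ^ 2 = 1) (h2 : |s| ≤ c) =>
    hit_sector hR hL hG hns hwpos hw hAG hK hsec h1 h2
  rcases le_total |s| |c| with h | h
  · rcases le_total 0 c with h0 | h0
    · rw [abs_of_nonneg h0] at h
      exact hs c s hcs h x0 y0
    · rw [abs_of_nonpos h0] at h
      have h1 := hs (-c) (-s) (by rw [← hcs]; ring) (by rwa [abs_neg])
      have h2 := hrot _ _ (hrot _ _ h1) x0 y0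
      simpa using h2
  · rcases le_total 0 s with h0 | h0
    · rw [abs_of_nonneg h0] at h
      have h1 := hs s (-c) (by rw [← hcs]; ring) (by rwa [abs_neg])
      have h2 := hrot _ _ h1 x0 y0
      simpa using h2
    · rw [abs_of_nonpos h0] at h
      have h1 := hs (-s) c (by rw [← hcs]; ring) h
      have h2 := hrot _ _ (hrot _ _ (hrot _ _ h1)) x0 y0
      simpa using h2

theorem diff_lt {p q p' q' : ℝ} (h : p ^ 2 + q ^ 2 < 2048 ^ 2) (h' : p' ^ 2 + q' ^ 2 < 2048 ^ 2) :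
    (p - p') ^ 2 + (q - q') ^ 2 < 4096 ^ 2 := by
  have h1 : (p - p') ^ 2 + (q - q') ^ 2 = 2 * (p ^ 2 + q ^ 2) + 2 * (p' ^ 2 + q' ^ 2) -
      (p + p') ^ 2 - (q + q') ^ 2 := by ring
  have h2 := sq_nonneg (p + p')
  have h3 := sq_nonneg (q + q')
  rw [h1]
  linarith

theorem far_aux {X Y dx dy : ℝ} (h : X ^ 2 + Y ^ 2 < 4096 ^ 2)
    (h1 : (X + dx) ^ 2 + (Y + dy) ^ 2 = 4096 ^ 2) (h2 : (8192 : ℝ) ^ 2 ≤ dx ^ 2 + dy ^ 2) :
    False := by
  have h3 : dx ^ 2 + dy ^ 2 = 2 * ((X + dx) ^ 2 + (Y + dy) ^ 2) + 2 * (X ^ 2 + Y ^ 2) -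
      (2 * X + dx) ^ 2 - (2 * Y + dy) ^ 2 := by ring
  have h4 := sq_nonneg (2 * X + dx)
  have h5 := sq_nonneg (2 * Y + dy)
  rw [h3, h1] at h2
  linarith

/-- No two red points are at distance `4096`. -/
theorem no_unit (hS : SepOK P) (hL : 8192 ≤ P.L) {x y x' y' : ℝ} (h : Red P x y)
    (h' : Red P x' y') : (x - x') ^ 2 + (y - y') ^ 2 ≠ 4096 ^ 2 := by
  obtain ⟨i, hi, a, b, h⟩ := h
  obtain ⟨j, hj, a', b', h'⟩ := h'
  obtain ⟨hXi, hYi, hsep⟩ := hS i hi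
  obtain ⟨hXj, hYj, -⟩ := hS j hj
  set p : ℝ := x - ((ctrX P i : ℝ) + a * P.L) with hp
  set q : ℝ := y - ((ctrY P i : ℝ) + b * P.L) with hq
  set p' : ℝ := x' - ((ctrX P j : ℝ) + a' * P.L) with hp'
  set q' : ℝ := y' - ((ctrY P j : ℝ) + b' * P.L) with hq'
  -- difference vector of centres
  set dx : ℤ := (ctrX P i : ℤ) - ctrX P j + (a - a') * P.L with hdx
  set dy : ℤ := (ctrY P i : ℤ) - ctrY P j + (b - b') * P.L with hdy
  have hxx : x - x' = p - p' + dx := by rw [hp, hp', hdx]; push_cast; ring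
  have hyy : y - y' = q - q' + dy := by rw [hq, hq', hdy]; push_cast; ring
  have hcase : (dx = 0 ∧ dy = 0) ∨ 8192 ^ 2 ≤ dx ^ 2 + dy ^ 2 := by
    have big : ∀ (α β L : ℤ) (e : ℤ), 0 ≤ α → α < L → 0 ≤ β → β < L → 8192 ≤ L →
        (e < -1 ∨ 1 < e) → 8192 ^ 2 ≤ (α - β + e * L) ^ 2 := by
      intro α β L e h1 h2 h3 h4 h5 he
      rcases he with he | he
      · have : α - β + e * L ≤ -8192 := by nlinarith
        nlinarith
      · have : 8192 ≤ α - β + e * L := by nlinarith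
        nlinarith
    have hXi' : (ctrX P i : ℤ) < P.L := by exact_mod_cast hXi
    have hXj' : (ctrX P j : ℤ) < P.L := by exact_mod_cast hXj
    have hYi' : (ctrY P i : ℤ) < P.L := by exact_mod_cast hYi
    have hYj' : (ctrY P j : ℤ) < P.L := by exact_mod_cast hYj
    have hL' : (8192 : ℤ) ≤ P.L := by exact_mod_cast hL
    by_cases he : (a - a') < -1 ∨ 1 < (a - a')
    · right
      have := big _ _ _ _ (Int.natCast_nonneg _) hXi' (Int.natCast_nonneg _) hXj' hL' he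
      rw [← hdx] at this
      have h2 := sq_nonneg dy
      linarith
    by_cases hf : (b - b') < -1 ∨ 1 < (b - b')
    · right
      have := big _ _ _ _ (Int.natCast_nonneg _) hYi' (Int.natCast_nonneg _) hYj' hL' hf
      rw [← hdy] at this
      have h2 := sq_nonneg dx
      linarith
    obtain ⟨e, he'⟩ := Int.eq_ofNat_of_zero_le (show 0 ≤ (a - a') + 1 by omega)
    obtain ⟨f, hf'⟩ := Int.eq_ofNat_of_zero_le (show 0 ≤ (b - b') + 1 by omega)
    have hchk := hsep j hj e (by omega) f (by omega)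
    have he2 : a - a' = (e : ℤ) - 1 := by omega
    have hf2 : b - b' = (f : ℤ) - 1 := by omega
    rcases hchk with ⟨rfl, h1, h2⟩ | h3
    · left
      rw [hdx, hdy, he2, hf2, h1, h2]
      constructor <;> push_cast <;> ring
    · right
      rw [hdx, hdy, he2, hf2]
      exact h3
  have hdiff : (p - p') ^ 2 + (q - q') ^ 2 < 4096 ^ 2 := diff_lt h h'
  rw [hxx, hyy]
  rcases hcase with ⟨h1, h2⟩ | h1
  · rw [h1, h2]
    push_cast
    simp only [add_zero]
    exact hdiff.ne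
  · intro heq
    have h1R : (8192 : ℝ) ^ 2 ≤ (dx : ℝ) ^ 2 + (dy : ℝ) ^ 2 := by exact_mod_cast h1
    exact far_aux hdiff heq h1R

/-- The colouring of the plane given by a verified configuration. -/
theorem coloring (hR : RotOK P) (hS : SepOK P) (hL : 8192 ≤ P.L) (hG : 0 < P.G) {ns w K : ℕ}
    (hns : 0 < ns) (hwpos : 0 < w) (hw : ns * w = P.L)
    (hAG : P.G ^ 2 ≤ P.A ^ 2 + 2 * P.A * P.G)
    (hK : w * 5000 + 7071 * P.H < 7071 * 2048 * (K + 1))
    (hsec : ∀ σ ≤ ns / 2, ∀ y u : ℝ, 0 ≤ y → y ≤ P.L → 0 ≤ P.A + P.G * u →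
      P.A + P.G * u ≤ 2 * P.A → LineOK P ((σ * w : ℕ) : ℝ) y u) :
    ∃ B : Set (EuclideanSpace ℝ (Fin 2)), (∀ x ∉ B, ∀ y ∉ B, dist x y ≠ 1) ∧
      ¬ ∃ x v : EuclideanSpace ℝ (Fin 2), ‖v‖ = 1 ∧ ∀ j : ℕ, j < K → x + (j : ℝ) • v ∈ B := by
  refine ⟨{p | ¬ Red P (4096 * p 0) (4096 * p 1)}, ?_, ?_⟩
  · intro x hx y hy hd
    simp only [Set.mem_ofPred_eq, not_not] at hx hy
    apply no_unit hS hL hx hy
    have h1 := EuclideanSpace.dist_eq x y
    rw [hd] at h1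
    have h2 : Real.sqrt (∑ i, dist (x i) (y i) ^ 2) ^ 2 = ∑ i, dist (x i) (y i) ^ 2 :=
      Real.sq_sqrt (by positivity)
    rw [← h1, Fin.sum_univ_two, Real.dist_eq, Real.dist_eq, sq_abs, sq_abs] at h2
    linear_combination (-(4096 : ℝ) ^ 2) * h2
  · rintro ⟨x, v, hv, h⟩
    have hcs : (v 0) ^ 2 + (v 1) ^ 2 = 1 := by
      have h1 := EuclideanSpace.norm_eq v
      rw [hv] at h1
      have h2 : Real.sqrt (∑ i, ‖v i‖ ^ 2) ^ 2 = ∑ i, ‖v i‖ ^ 2 := Real.sq_sqrt (by positivity)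
      rw [← h1, Fin.sum_univ_two, Real.norm_eq_abs, Real.norm_eq_abs, sq_abs, sq_abs] at h2
      linarith
    obtain ⟨j, hj, hred⟩ := hit_all hR (by omega) hG hns hwpos hw hAG hK hsec hcs
      (4096 * x 0) (4096 * x 1)
    have h1 := h j hj
    simp only [Set.mem_ofPred_eq] at h1
    apply h1
    have e0 : 4096 * (x + (j : ℝ) • v) 0 = 4096 * x 0 + 4096 * j * v 0 := by
      simp only [PiLp.add_apply, PiLp.smul_apply, smul_eq_mul]; ring
    have e1 : 4096 * (x + (j : ℝ) • v) 1 = 4096 * x 1 + 4096 * j * v 1 := by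
      simp only [PiLp.add_apply, PiLp.smul_apply, smul_eq_mul]; ring
    rw [e0, e1]
    exact hred

end Pool.Agent.Lib.MP_2b7a4a_co
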