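import Pool.Agent.Lib.MP_2b7a4a_co.Core

namespace Pool.Agent.Lib.MP_2b7a4a_co

/-- The configuration. -/
def cfg : Par where
  KX := 468571659194319564127557062139565920407478465158134094982645922367856950349277643816796216889581998870843555353534098463015938352404950113751894201647548782933616895254528446497292288
  KY := 38064264720377519511718755996624340375757546754131017963269911180440861555802158838213143178072064869445824662554435931789331333766465695332745367102059920196449331112409635249717248
  M := 38
  L := 50848
  G := 1048576
  A := 434336
  H := 76697

theorem ys_ok {P : Par} {m sx ylo yhi ulo uhi : ℕ} {a b : Tr}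
    (ha : check P a sx ylo m ulo uhi = true) (hb : check P b sx m yhi ulo uhi = true) :
    check P (.ys m a b) sx ylo yhi ulo uhi = true := by
  show (check P a sx ylo m ulo uhi && check P b sx m yhi ulo uhi) = true
  rw [ha, hb]; rfl

theorem us_ok {P : Par} {m sx ylo yhi ulo uhi : ℕ} {a b : Tr}
    (ha : check P a sx ylo yhi ulo m = true) (hb : check P b sx ylo yhi m uhi = true) :
    check P (.us m a b) sx ylo yhi ulo uhi = true := by
  show (check P a sx ylo yhi ulo m && check P b sx ylo yhi m uhi) = true
  rw [ha, hb]; rfl

end Pool.Agent.Lib.MP_2b7a4a_co
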